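import Mathlib
import Pool.Agent.Q263.CS.Final

/-! # A Q-normal number that is not normal along any progression with modulus equal to the order -/

set_option autoImplicit false

open Finset Filter Topology

namespace Pool.Agent.Results.MP_8144ad_nt.NormalNotAP

/-- `(E_n)_{n ≥ 1}` (together with `E_0 = ⌊x⌋`) is the `Q`-Cantor series expansion of `x`:
`E_n ∈ {0,…,q_n - 1}`, `E_n ≠ q_n - 1` infinitely often, and
`x = ⌊x⌋ + ∑_{n ≥ 1} E_n / (q_1 ⋯ q_n)` -/
def IsExpansion (q : ℕ → ℕ) (x : ℝ) (E : ℕ → ℕ) : Prop :=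
  (∀ n, 1 ≤ n → E n < q n) ∧ (∀ N, ∃ n, N ≤ n ∧ E n ≠ q n - 1) ∧
    HasSum (fun n : ℕ => (E (n + 1) : ℝ) / ∏ i ∈ Icc 1 (n + 1), (q i : ℝ)) (x - ⌊x⌋)

/-- `Q_n^{(k)} = ∑_{j=1}^n 1/(q_j q_{j+1} ⋯ q_{j+k-1})` -/
noncomputable def Qk (q : ℕ → ℕ) (k n : ℕ) : ℝ :=
  ∑ j ∈ Icc 1 n, (∏ t ∈ range k, (q (j + t) : ℝ))⁻¹

/-- `Q_{n,m,r}^{(k)}`: the same sum over the `1 ≤ j ≤ n` with `j ≡ r (mod m)` -/
noncomputable def Qap (q : ℕ → ℕ) (k m r n : ℕ) : ℝ :=
  ∑ j ∈ (Icc 1 n).filter (fun j => j % m = r), (∏ t ∈ range k, (q (j + t) : ℝ))⁻¹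

/-- the number of positions `1 ≤ i ≤ n` at which `B` occurs -/
def count {k : ℕ} (E : ℕ → ℕ) (B : Fin k → ℕ) (n : ℕ) : ℕ :=
  #((Icc 1 n).filter fun i => ∀ t : Fin k, E (i + t) = B t)

/-- the number of positions `1 ≤ i ≤ n`, `i ≡ r (mod m)`, at which `B` occurs -/
def countAP {k : ℕ} (E : ℕ → ℕ) (B : Fin k → ℕ) (m r n : ℕ) : ℕ :=
  #((Icc 1 n).filter fun i => (∀ t : Fin k, E (i + t) = B t) ∧ i % m = r)

/-- fully divergent of type I -/
def FullyDivergentI (q : ℕ → ℕ) : Prop :=
  ∀ k m r, 1 ≤ k → 1 ≤ m → r < m → Tendsto (Qap q k m r) atTop atTop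

/-- normality of order `k` -/
def NormalOfOrder (q : ℕ → ℕ) (E : ℕ → ℕ) (k : ℕ) : Prop :=
  ∀ B : Fin k → ℕ, Tendsto (fun n => (count E B n : ℝ) / Qk q k n) atTop (𝓝 1)

/-- membership in `N^{AP}_k(Q;m,r)` -/
def APNormal (q : ℕ → ℕ) (E : ℕ → ℕ) (k m r : ℕ) : Prop :=
  ∀ B : Fin k → ℕ, Tendsto (fun n => (countAP E B m r n : ℝ) / Qap q k m r n) atTop (𝓝 1)

open Q263.CS in
lemma cnt_eq {k : ℕ} (E : ℕ → ℕ) (B : Fin k → ℕ) (n : ℕ) :
    cnt E B (fun _ => True) n = count E B n := by
  unfold cnt count occ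
  congr 1
  ext i
  simp

open Q263.CS in
lemma cntAP_eq {k : ℕ} (E : ℕ → ℕ) (B : Fin k → ℕ) (m r n : ℕ) :
    cnt E B (fun i => i % m = r) n = countAP E B m r n := by
  unfold cnt countAP occ
  congr 1

/-- all lengths are enabled -/
def en : ℕ → Prop := fun _ => True

open Q263.CS in
/-- **Answer to Q1 (yes).**  There are a basic sequence `q` with `q_n → ∞` that is fully divergent
of type I and a real number `x` which is `q`-normal (of every order) but lies in no set
`N^{AP}_k(q;k,r)` with `k ≥ 2`, `0 ≤ r ≤ k - 1`. -/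
theorem result : ∃ q : ℕ → ℕ, (∀ n, 2 ≤ q n) ∧ Tendsto q atTop atTop ∧ FullyDivergentI q ∧
    ∃ (x : ℝ) (E : ℕ → ℕ), IsExpansion q x E ∧ (∀ k, 1 ≤ k → NormalOfOrder q E k) ∧
      ∀ k, 2 ≤ k → ∀ r, r < k → ¬ APNormal q E k k r := by
  obtain ⟨x, hx⟩ := exists_real Q (E en) (fun n => two_le_q _) (fun n _ => E_lt en n)
    (E_inf en one_pos trivial)
  refine ⟨Q, fun n => two_le_q _, tendsto_Q,
    fun k m r _ hm hr => tendsto_Qap k m r hm hr, x, E en, hx, ?_, ?_⟩
  · intro k hk C
    refine (freq_one en hk trivial C).congr fun n => ?_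
    rw [cnt_eq]
    rfl
  · intro k hk r hr hAP
    have hk0 : 0 < k := by omega
    have hkr : (0 : ℝ) < k := by exact_mod_cast hk0
    set C : Fin k → ℕ := fun _ => 0
    have h1 := freq_one en hk0 trivial C
    have h2 := freq_zero en hk0 C (fun i => ¬ k ∣ i)
      (fun J i hJ _ _ hm _ hnd => hnd (main_dvd hk0 hJ hm))
    have hAPC := hAP C
    have hQs := tendsto_Qs k
    have hQap := tendsto_Qap k k r hk0 hr
    by_cases hr0 : r = 0
    · subst hr0
      -- `N_{n,k,0} / Q_n → 1`
      have h3 : Tendsto (fun n => (countAP (E en) C k 0 n : ℝ) / Qs Q k n) atTop (𝓝 (1 - 0)) := by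
        refine (h1.sub h2).congr fun n => ?_
        rw [← sub_div]
        congr 1
        have h4 : cnt (E en) C (fun _ => True) n =
            countAP (E en) C k 0 n + cnt (E en) C (fun i => ¬ k ∣ i) n := by
          rw [← cntAP_eq]
          unfold cnt
          rw [← Finset.card_union_of_disjoint]
          · congr 1
            ext i
            simp only [Finset.mem_filter, Finset.mem_union, and_true]
            constructor
            · intro h
              by_cases hd : k ∣ i
              · exact Or.inl ⟨h.1, h.2, Nat.mod_eq_zero_of_dvd hd⟩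
              · exact Or.inr ⟨h.1, h.2, hd⟩
            · rintro (h | h)
              · exact ⟨h.1, h.2.1⟩
              · exact ⟨h.1, h.2.1⟩
          · rw [Finset.disjoint_filter]
            intro i _ h h'
            exact h'.2 (Nat.dvd_of_mod_eq_zero h.2)
        have h5 : (cnt (E en) C (fun _ => True) n : ℝ) =
            countAP (E en) C k 0 n + cnt (E en) C (fun i => ¬ k ∣ i) n := by exact_mod_cast h4
        rw [h5]; ring
      rw [sub_zero] at h3
      -- `Q_{n,k,0}/Q_n → 1`
      have h6 : Tendsto (fun n => Q263.CS.Qap Q k k 0 n / Qs Q k n) atTop (𝓝 (1 / 1)) := by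
        have h7 := h3.div hAPC one_ne_zero
        have hne : ∀ᶠ n in atTop, (countAP (E en) C k 0 n : ℝ) ≠ 0 := by
          have := h3.eventually (isOpen_ne.mem_nhds (one_ne_zero : (1 : ℝ) ≠ 0))
          filter_upwards [this] with n hn h0
          apply hn
          rw [h0, zero_div]
        refine h7.congr' ?_
        filter_upwards [hne, hQs.eventually_gt_atTop 0, hQap.eventually_gt_atTop 0] with n a1 a2 a3
        have a4 : 0 < Qap Q k k 0 n := a3
        show (countAP (E en) C k 0 n : ℝ) / Qs Q k n / ((countAP (E en) C k 0 n : ℝ) /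
          Qap Q k k 0 n) = Qap Q k k 0 n / Qs Q k n
        field_simp
      rw [div_one] at h6
      -- but `Q_{n,k,0} ≤ Q_n - Q_{n,k,1}` and `Q_{n,k,1} ≥ (Q_n - 2k)/k`
      have h8 : ∀ n, Q263.CS.Qap Q k k 0 n ≤ Qs Q k n - (Qs Q k n - 2 * k) / k := by
        intro n
        have h9 := Qap_ge Q_mono (fun n => two_le_q _) k k 1 n hk0 (by omega)
        have h10 : Q263.CS.Qap Q k k 0 n + Q263.CS.Qap Q k k 1 n ≤ Qs Q k n := by
          unfold Q263.CS.Qap Qs
          rw [← Finset.sum_union]
          · apply Finset.sum_le_sum_of_subset_of_nonneg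
            · exact Finset.union_subset (Finset.filter_subset _ _) (Finset.filter_subset _ _)
            · intro i _ _; exact wt_nonneg _ _ _
          · rw [Finset.disjoint_filter]
            intro i _ h h'
            omega
        have h11 : (Qs Q k n - 2 * k) / k ≤ Q263.CS.Qap Q k k 1 n := by
          rw [div_le_iff₀ hkr]; linarith
        linarith
      have h12 : Tendsto (fun n => (Qs Q k n - (Qs Q k n - 2 * k) / k) / Qs Q k n) atTop
          (𝓝 (1 - 1 / k + 0)) := by
        have h13 : Tendsto (fun n => 2 / Qs Q k n) atTop (𝓝 0) :=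
          Tendsto.div_atTop tendsto_const_nhds hQs
        refine (tendsto_const_nhds.add h13).congr' ?_
        filter_upwards [hQs.eventually_gt_atTop 0] with n hn
        field_simp
        ring
      have h14 : (1 : ℝ) ≤ 1 - 1 / k + 0 := by
        refine le_of_tendsto_of_tendsto h6 h12 ?_
        filter_upwards [hQs.eventually_gt_atTop 0] with n hn
        exact div_le_div_of_nonneg_right (h8 n) hn.le
      have : 0 < 1 / (k : ℝ) := by positivity
      linarith
    · -- `N_{n,k,r} ≤ N(¬ k ∣ i) = o(Q_n)` and `Q_n ≤ 3 k Q_{n,k,r}`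
      have h3 : Tendsto (fun n => (countAP (E en) C k r n : ℝ) / Qap Q k k r n) atTop (𝓝 0) := by
        have h4 : Tendsto (fun n => 3 * (k : ℝ) * ((cnt (E en) C (fun i => ¬ k ∣ i) n : ℝ) /
            Qs Q k n)) atTop (𝓝 (3 * k * 0)) := h2.const_mul _
        rw [mul_zero] at h4
        refine tendsto_of_tendsto_of_tendsto_of_le_of_le' tendsto_const_nhds h4 ?_ ?_
        · filter_upwards [hQap.eventually_gt_atTop 0] with n hn
          have : 0 < Qap Q k k r n := hn
          positivity
        · filter_upwards [hQap.eventually_gt_atTop 1, hQs.eventually_gt_atTop 0] with n hn hn2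
          have hn' : 1 < Qap Q k k r n := hn
          have h5 := Qap_ge Q_mono (fun n => two_le_q _) k k r n hk0 hr
          have h5' : Qs Q k n ≤ k * Qap Q k k r n + 2 * k := h5
          have h6 : (countAP (E en) C k r n : ℝ) ≤ cnt (E en) C (fun i => ¬ k ∣ i) n := by
            rw [← cntAP_eq]
            unfold cnt
            have : #((Icc 1 n).filter fun i => occ (E en) C i ∧ i % k = r) ≤
                #((Icc 1 n).filter fun i => occ (E en) C i ∧ ¬ k ∣ i) := by
              apply Finset.card_le_card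
              intro i hi
              rw [Finset.mem_filter] at hi ⊢
              refine ⟨hi.1, hi.2.1, fun hd => hr0 ?_⟩
              rw [← hi.2.2]
              exact Nat.mod_eq_zero_of_dvd hd
            exact_mod_cast this
          have h7 : Qs Q k n ≤ 3 * k * Qap Q k k r n := by nlinarith
          have hc0 : (0 : ℝ) ≤ cnt (E en) C (fun i => ¬ k ∣ i) n := by positivity
          rw [div_le_iff₀ (by linarith), mul_assoc, div_mul_eq_mul_div, ← mul_div_assoc,
            le_div_iff₀ hn2]
          have h8 : (countAP (E en) C k r n : ℝ) * Qs Q k n ≤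
              (cnt (E en) C (fun i => ¬ k ∣ i) n : ℝ) * (3 * k * Qap Q k k r n) :=
            mul_le_mul h6 h7 hn2.le hc0
          linarith
      have := tendsto_nhds_unique hAPC h3
      norm_num at this

end Pool.Agent.Results.MP_8144ad_nt.NormalNotAP
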